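import Pool.Agent.H919M.Mdl
import Pool.Agent.H919M.T24c
import Pool.Agent.Helper819.Pt

/-!
For `N ≥ 2`, `d ≥ 2` over an algebraically closed field of characteristic zero, the class of an
endomorphism with a nontrivial automorphism is a singular point of `M_d^N`.
-/

open MvPolynomial

namespace Pool.Agent.Results.MP_807a54_ag.SingularLocus

open Pool.Agent.Helper819.Dyn Pool.Agent.H919M

theorem result (k : Type) [Field k] [IsAlgClosed k] [CharZero k] (N d : ℕ) (hN : 2 ≤ N)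
    (hd : 2 ≤ d) (F : EndTuple k N d)
    (hF : ∃ (φ : GL (Fin (N + 1)) k) (c : kˣ),
      (∀ μ : k, (φ : Matrix (Fin (N + 1)) (Fin (N + 1)) k) ≠ μ • 1) ∧
        conj φ F.1 = fun i => C (c : k) * F.1 i) :
    ¬ IsRegularLocalRing ((ModuliScheme k N d).presheaf.stalk (modCls hd F)) := by
  intro hreg
  obtain ⟨e⟩ := isoModuli hd F
  have h1 : IsRegularLocalRing (OO (cft F)) := IsRegularLocalRing.of_ringEquiv e
  refine not_regular hN hd (NZ_cft F) ?_ h1
  intro hfree
  obtain ⟨φ, c, hns, hφ⟩ := hF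
  have hNd : 0 < N + d := by omega
  have hdet : (φ : Matrix (Fin (N + 1)) (Fin (N + 1)) k).det ≠ 0 :=
    ((Matrix.isUnit_iff_isUnit_det _).mp φ.isUnit).ne_zero
  set r : k := (φ : Matrix (Fin (N + 1)) (Fin (N + 1)) k).det * (c : k) with hr
  have hr0 : r ≠ 0 := mul_ne_zero hdet c.ne_zero
  have h2 : actT (φ : Matrix (Fin (N + 1)) (Fin (N + 1)) k) (cft F) = r • cft F := by
    have h3 : act (φ : Matrix (Fin (N + 1)) (Fin (N + 1)) k) (tup (cft F)) =
        fun i => C r * F.1 i := by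
      funext i
      rw [tup_cft, conj_eq_act, hφ, hr, C_mul, mul_assoc]
    unfold actT
    rw [h3, cf_C_mul]
    rfl
  obtain ⟨a, ha⟩ := IsAlgClosed.exists_pow_nat_eq r⁻¹ hNd
  have ha0 : a ≠ 0 := by
    rintro rfl
    rw [zero_pow hNd.ne'] at ha
    exact inv_ne_zero hr0 ha.symm
  obtain ⟨μ, hμ⟩ := hfree (a • (φ : Matrix (Fin (N + 1)) (Fin (N + 1)) k))
    (by rw [Matrix.det_smul]; exact mul_ne_zero (pow_ne_zero _ ha0) hdet)
    (by rw [actT_smul_mat, h2, smul_smul, ha, inv_mul_cancel₀ hr0, one_smul])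
  apply hns (a⁻¹ * μ)
  rw [← smul_smul, ← hμ, smul_smul, inv_mul_cancel₀ ha0, one_smul]

end Pool.Agent.Results.MP_807a54_ag.SingularLocus
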